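import Pool.Agent.N20.KB.Fix

/-!
MP_6a3f1a_al (Alperin's weight conjecture in the alternating-sum form of Knörr and Robinson): the
conjecture is a congruence modulo `p` for numbers of commuting pairs and commutators.

`F` is an algebraically closed field of characteristic `p` and `red` a ring homomorphism from the ring
of all complex algebraic integers to `F`. The elements of the group algebra `F[G]` are the functions
`G → F`, those of its centre the class functions.

Notation.
* `IsBlock B` (`Pool/Agent/Y63/NV/Defs.lean`): `B` is (the central character of) a block of `G`, an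
  algebra homomorphism from the centre of `F[G]` to `F`.
* `alternatingSum p G f` (`Pool/Agent/Y63/KR/Defs.lean`) is `∑_σ (-1)^|σ| f(G_σ)`, over representatives
  `σ` of the classes of chains of nontrivial `p`-subgroups of `G`, the empty chain included;
  `chainStabilizer σ` is `G_σ`.
* `numIrrInd red H B` (`Pool/Agent/Y63/NV/Stm5.lean`) is the number of the `χ ∈ Irr(H)` with
  `bl(χ)^G = B`, so `numIrrInd red G_σ B` is `k(B_σ)`. `numDzBlock p red B` is `z(B)`, the number of the
  characters of defect zero in `B` (`1` if `B` has trivial defect groups and `0` otherwise).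
* `dB red p B` (`Pool/Agent/N20/KB/Cnt.lean`) is `∑_σ (-1)^|σ| k(B_σ) - z(B)`.
* `KRQ p red G` (`Pool/Agent/R674/KB/Dz.lean`): `∑_σ (-1)^|σ| k(B_σ) = 0` for all blocks `B` of `G`
  without characters of defect zero. If `O_p(G) = 1` this is Q1 for all blocks of `G`.
* `Wr p H = H ≀ C_p` (`Pool/Agent/N85/WM/Stm.lean`) is the wreath product `H^p ⋊ C_p`, and `WrN p G n`
  (`Pool/Agent/N20/KRM/Main.lean`) the iterated wreath product `(⋯ ((G ≀ C_p) ≀ C_p) ⋯) ≀ C_p` with `n`
  factors `C_p` (`WrN p G 0 = G`).
* `altCom p g` (`Pool/Agent/N20/KB/Tr.lean`), for `g` in `W`, is `∑_σ (-1)^|σ| N_σ(g)`, the sum over all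
  chains `σ` of nontrivial `p`-subgroups of `W`, where `N_σ(g)` is the number of the pairs `(x, y)` of
  elements of `W_σ` with `[x, y]` conjugate to `g` in `W`.
* `trip p g` is the number of the triples `(x, y, k)` of elements of `W` such that `k` is conjugate to
  `g` and the order of `k[x, y]` is a power of `p`.

Proof. (1) Let `e` be the idempotent of `B` and `a = ∑_σ (-1)^|σ| k(B_σ)`. A formula for normal
subgroups of index `p` shows that the alternating sum for the idempotent `e ⊗ ⋯ ⊗ e` of `G ≀ C_p` is
`(a^p - a) / p`; the number `z(B) ∈ {0, 1}` satisfies the same rule. So `a ≡ z(B)` modulo `p ^ (m + 1)` if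
it holds modulo `p` for `G` and modulo `p ^ m` for `G ≀ C_p`. The converse follows from a similar formula
for all central elements of `F[G ≀ C_p]` supported on `G^p`, which separate the blocks of `G ≀ C_p`.
(2) The sum of the central characters of a group is the trace of the regular representation of the
centre of the group algebra, and the sum of those of defect zero is the trace of the multiplication with
the sum of all `p`-elements. The central characters of different blocks are linearly independent.
-/

set_option autoImplicit false

namespace Pool.Agent.Results.MP_6a3f1a_al.CommutatorCongruence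

open Pool.Agent.Y63.NV (IsBlock)
open Pool.Agent.R674.KB (KRQ krq_iff)
open Pool.Agent.N85.WM (Wr)
open Pool.Agent.N20.KRM (WrN wrN_finite)
open Pool.Agent.N20.KB

/-- Let `p` be a prime, `F` an algebraically closed field of characteristic `p` and `red` a reduction
map.
1. Let `G` be a finite group. Then `∑_σ (-1)^|σ| k(B_σ) = 0` for all blocks `B` of `G` with nontrivial
defect groups if and only if
`∑_σ (-1)^|σ| N_σ(g) ≡ |{(x, y, k) ∈ W³ : k ~ g, k[x, y] is a p-element}| (mod p |W|_p)`
for the iterated wreath products `W = G, G ≀ C_p, (G ≀ C_p) ≀ C_p, …` and all `g ∈ W`.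
2. More precisely `∑_σ (-1)^|σ| k(B_σ) ≡ z(B) (mod p^m)` for all blocks `B` of `G` if and only if these
congruences hold for the first `m` of the groups `W`.
3. For every class `X` of groups closed under `G ↦ G ≀ C_p` (for instance the class of all groups),
`∑_σ (-1)^|σ| k(B_σ) = 0` for all blocks with nontrivial defect groups of all finite groups in `X` if
and only if it is congruent to `z(B)` modulo `p` for all blocks `B` of all finite groups in `X`, if and
only if the congruences hold for all elements of all finite groups in `X`. -/
theorem result (p : ℕ) [Fact p.Prime] (F : Type) [Field F] [IsAlgClosed F] [CharP F p]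
    (red : integralClosure ℤ ℂ →+* F) :
    (∀ (G : Type) [Group G] [Finite G], KRQ p red G ↔
      ∀ (n : ℕ) (g : WrN p (GrpCat.of G) n),
        (p : ℤ) ^ ((Nat.card (WrN p (GrpCat.of G) n)).factorization p + 1) ∣
          altCom p g - trip p g) ∧
    (∀ (G : Type) [Group G] [Finite G] (m : ℕ),
      (∀ B : (G → F) → F, IsBlock B → (p : ℤ) ^ m ∣ dB red p B) ↔
      ∀ n < m, ∀ g : WrN p (GrpCat.of G) n,
        (p : ℤ) ^ ((Nat.card (WrN p (GrpCat.of G) n)).factorization p + 1) ∣
          altCom p g - trip p g) ∧
    ∀ X : (H : Type) → [Group H] → Prop,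
      (∀ (H : Type) [Group H] [Finite H], X H → X (Wr p H)) →
      ((∀ (H : Type) [Group H] [Finite H], X H → KRQ p red H) ↔
        ∀ (H : Type) [Group H] [Finite H], X H → ∀ B : (H → F) → F, IsBlock B →
          (p : ℤ) ∣ dB red p B) ∧
      ((∀ (H : Type) [Group H] [Finite H], X H → KRQ p red H) ↔
        ∀ (H : Type) [Group H] [Finite H], X H → ∀ g : H,
          (p : ℤ) ^ ((Nat.card H).factorization p + 1) ∣ altCom p g - trip p g) := by
  have h0 : ∀ (G : Type) [Group G] [Finite G],
      KRQ p red G ↔ ∀ n : ℕ, DvB red p p (WrN p (GrpCat.of G) n) := by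
    intro G _ _
    have _i : Finite (GrpCat.of G) := inferInstanceAs (Finite G)
    rw [krq_iff]
    exact fix_iff red (GrpCat.of G)
  have h1 : ∀ (G : Type) [Group G] [Finite G], KRQ p red G ↔
      ∀ (n : ℕ) (g : WrN p (GrpCat.of G) n),
        (p : ℤ) ^ ((Nat.card (WrN p (GrpCat.of G) n)).factorization p + 1) ∣
          altCom p g - trip p g := by
    intro G _ _
    have _i : Finite (GrpCat.of G) := inferInstanceAs (Finite G)
    rw [h0]
    refine forall_congr' fun n => ?_
    have _i2 := wrN_finite p (GrpCat.of G) n
    exact com_iff red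
  have key : ∀ X : (H : Type) → [Group H] → Prop,
      (∀ (H : Type) [Group H] [Finite H], X H → X (Wr p H)) →
      ∀ (H : Type) [Group H] [Finite H], X H → ∀ n : ℕ, X (WrN p (GrpCat.of H) n) := by
    intro X hX H _ _ hH n
    have _i : Finite (GrpCat.of H) := inferInstanceAs (Finite H)
    induction n with
    | zero => exact hH
    | succ n ih =>
      have _i2 := wrN_finite p (GrpCat.of H) n
      exact hX (WrN p (GrpCat.of H) n) ih
  have h2 : ∀ X : (H : Type) → [Group H] → Prop,
      (∀ (H : Type) [Group H] [Finite H], X H → X (Wr p H)) →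
      ((∀ (H : Type) [Group H] [Finite H], X H → KRQ p red H) ↔
        ∀ (H : Type) [Group H] [Finite H], X H → DvB red p p H) := by
    intro X hX
    constructor
    · intro h H _ _ hH
      exact (h0 H).1 (h H hH) 0
    · intro h H _ _ hH
      rw [h0]
      intro n
      have _i : Finite (GrpCat.of H) := inferInstanceAs (Finite H)
      have _i2 := wrN_finite p (GrpCat.of H) n
      exact h (WrN p (GrpCat.of H) n) (key X hX H hH n)
  refine ⟨h1, ?_, ?_⟩
  · intro G _ _ m
    have _i : Finite (GrpCat.of G) := inferInstanceAs (Finite G)
    refine (fix_mod red (GrpCat.of G) m).trans ?_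
    refine forall_congr' fun n => imp_congr_right fun _ => ?_
    have _i2 := wrN_finite p (GrpCat.of G) n
    exact com_iff red
  · intro X hX
    refine ⟨h2 X hX, (h2 X hX).trans ?_⟩
    constructor
    · intro h H _ _ hH
      exact (com_iff red).1 (h H hH)
    · intro h H _ _ hH
      exact (com_iff red).2 (h H hH)

end Pool.Agent.Results.MP_6a3f1a_al.CommutatorCongruence
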