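import Pool.Agent.N20.EW.FinB
import Pool.Agent.N946.EKKBIJ
import Pool.Agent.N756.AEPERM

/-!
MP_6a3f1a_al (Alperin's weight conjecture in the alternating-sum form of Knörr and Robinson): the
conjecture is equivalent to its equivariant form for single automorphisms, by a local argument.

`F` is an algebraically closed field of characteristic `p` and `red` a ring homomorphism from the ring
of all complex algebraic integers to `F`. The elements of the group algebra `F[G]` are the functions
`G → F`, those of its centre the class functions.

Notation.
* `IsBlock B` (`Pool/Agent/Y63/NV/Defs.lean`): `B` is (the central character of) a block of `G`, an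
  algebra homomorphism from the centre of `F[G]` to `F`.
* `alternatingSum p G f` (`Pool/Agent/Y63/KR/Defs.lean`) is `∑_σ (-1)^|σ| f(G_σ)`, over representatives
  `σ` of the classes of chains of nontrivial `p`-subgroups of `G`, the empty chain included (a chain is
  the set of its members, `IsPChain`); `chainStabilizer σ` is `G_σ`. `numIrrInd red H B` is the number of
  the `ψ ∈ Irr(H)` with `bl(ψ)^G = B`.
* `KRQ p red G` (`Pool/Agent/R674/KB/Dz.lean`): `∑_σ (-1)^|σ| k(B_σ) = 0` for all blocks `B` of `G`
  with nontrivial defect groups (that is, without characters of defect zero). If `O_p(G) = 1` this is Q1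
  for all blocks of `G`.

`Pool/Agent/N20/EW/Stm5.lean`, `Stm2.lean`, `FinB.lean`, `FinK.lean`:
* `CPr p red B` is the set of the pairs `(σ, ψ)`, `σ` a chain of nontrivial `p`-subgroups of `G` and `ψ` an
  irreducible character of `G_σ` with `bl(ψ)^G = B`; `MapC β (σ, ψ) (σ', ψ')`: the automorphism `β` maps the
  first pair to the second one;
* `CCl p red B` is the set of the `G`-classes of these pairs, `CCl.rp` a representative, `CCl.len` the
  length `|σ|`; `ImgK α C C'`: the automorphism `α` of `G` maps the class `C` to the class `C'`. So
  `∑_σ (-1)^|σ| k(B_σ)` is the number of the classes of even length minus the number of those of odd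
  length; `CEv`, `COd` are the sets of the classes of even and of odd length (`cl`: the class);
* `InvA B α`: the block `B` is invariant under `α`; `NDef p red B`: `B` contains no character of defect
  zero;
* `AltF p red α`: for all `α`-invariant blocks `B` with nontrivial defect groups the numbers of the
  `α`-invariant classes of even length and of odd length are equal, that is,
  `∑_C (-1)^|C| = 0` for the sum over the `α`-invariant classes `C` of pairs;
* `AltE p red α`: for all such `B` there is a bijection `e` from the classes of even length to those
  of odd length such that `α` maps `e C` to `e C'` whenever it maps `C` to `C'`;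
* `IsExt i t α`: `i : G → E` is injective with normal image, the conjugation with `t ∈ E` induces `α` on
  `G`, and `E = G⟨t⟩`;
* `KRQloc p red i`: `KRQ` holds for all the groups `N_K(R)/R`, `K` a subgroup of `E` containing `G` and `R` a
  `p`-subgroup of `K` with `G ∩ R = 1`.
-/

set_option autoImplicit false

open scoped Classical

namespace Pool.Agent.Results.MP_6a3f1a_al.EquivariantAlternatingSums

open Pool.Agent.N20.EW
open Pool.Agent.R674.KB (KRQ)

/-- Let `p` be a prime, `F` an algebraically closed field of characteristic `p` and `red` a reduction
map.
1. Let `E = G⟨t⟩` be a finite group, `G` a normal subgroup, `α` the automorphism of `G` induced by `t`. If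
the alternating-sum conjecture holds for the groups `N_K(R)/R`, `K` a subgroup of `E` containing `G` and
`R` a `p`-subgroup of `K` with `G ∩ R = 1`, then for every `α`-invariant block `B` of `G` with nontrivial
defect groups there is a bijection, commuting with `α`, from the `G`-classes of pairs `(σ, ψ)` with
`bl(ψ)^G = B` and `|σ|` even to those with `|σ|` odd.
2. The conjecture holds for all finite groups if and only if for all finite groups `G`, all
automorphisms `α` of `G` and all `α`-invariant blocks `B` with nontrivial defect groups the alternating
sum over the `α`-invariant classes of pairs `(σ, ψ)` vanishes.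
3. The conjecture holds for all finite groups if and only if for all `G`, `α`, `B` as in 2 there is a
bijection, commuting with `α`, from the classes of pairs with `|σ|` even to those with `|σ|` odd. -/
theorem result (p : ℕ) [Fact p.Prime] (F : Type) [Field F] [IsAlgClosed F] [CharP F p]
    (red : integralClosure ℤ ℂ →+* F) :
    (∀ (G E : Type) [Group G] [Group E] [Finite E] (i : G →* E) (t : E) (α : MulAut G),
      IsExt i t α → KRQloc p red i → AltE p red α) ∧
    ((∀ (G : Type) [Group G] [Finite G], KRQ p red G) ↔
      ∀ (G : Type) [Group G] [Finite G] (α : MulAut G), AltF p red α) ∧
    ((∀ (G : Type) [Group G] [Finite G], KRQ p red G) ↔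
      ∀ (G : Type) [Group G] [Finite G] (α : MulAut G), AltE p red α) :=
  main_alt red (Pool.Agent.N946.EKKBIJ.KBIJ Pool.Agent.N756.AE.perm)

end Pool.Agent.Results.MP_6a3f1a_al.EquivariantAlternatingSums
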