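import Pool.Agent.N22.DD.Cla

/-!
# Alperin's weight conjecture in alternating-sum form: a subpolynomial upper bound decides

Let `p` be a prime and `O` a valuation ring of `ℂ` whose maximal ideal contains `p`; blocks, defect
groups and block induction are defined by central characters modulo the maximal ideal of `O`
(`Pool.Agent.H254R3.IN`). For a block `B` of a finite group `G` let `A(B)` be the alternating sum of the
numbers `k(B_σ)` over the classes of chains of nontrivial `p`-subgroups (this is the sum of Q1 if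
`O_p(G) = 1`), and `T(B)` the sum without signs.

Proof. The sum of an arbitrary function of the stabilisers over the chains of `G × K` is the sum of its
values at the `G_σ × K_τ` (`Pool.Agent.N22.DD.functional_prod`), so that `A(B ⊗ B) = A(B)²`; and
`2 A(B ≀ C₂) = A(B)² + 3 A(B)` for odd `p` (`Pool.Agent.Q90.WR.blkAlt_wr`). If `A` is bounded above by
`c_ε |G|^ε` for all `ε > 0`, so is its square, and hence `|A| ≤ 1`; the value `1` is excluded by
`B ≀ C₂` and `-1` by `(B ⊗ B) ≀ C₂`.
-/

set_option autoImplicit false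

noncomputable section

namespace Pool.Agent.Results.MP_6a3f1a_al.UpperBoundDecides

open Pool.Agent.Y63.KR (alternatingSum chainSetoid chainStabilizer)
open Pool.Agent.Q90.WR (Wr IndS AdmB bxS)
open Pool.Agent.Q259.BW (WrS)
open Pool.Agent.N22.DD (Cl SqC WrC)

/-- `k(B_σ)` for `G_σ = H`: the number of the irreducible characters `θ` of the subgroup `H` with
`bl(θ)^G = B`. -/
def kB (O : ValuationSubring ℂ) {G : Type} [Group G] (B : Set (G → ℂ)) (H : Subgroup G) : ℕ :=
  Nat.card (IndS O B (Subtype.val : H → G))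

/-- The alternating sum `∑_σ (-1)^|σ| k(B_σ)` over representatives `σ` of the `G`-classes of chains of
nontrivial `p`-subgroups of `G`, the empty chain included. -/
def A (p : ℕ) (O : ValuationSubring ℂ) {G : Type} [Group G] (B : Set (G → ℂ)) : ℤ :=
  alternatingSum p G (fun H => (kB O B H : ℤ))

/-- The same sum without signs. -/
def T (p : ℕ) (O : ValuationSubring ℂ) {G : Type} [Group G] (B : Set (G → ℂ)) : ℕ :=
  ∑ᶠ c : Quotient (chainSetoid p G), kB O B (chainStabilizer c.out.1)

/-- **Alperin's weight conjecture in alternating-sum form: a subpolynomial upper bound decides.** Let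
`p` be a prime and `C` a class of pairs `(G, B)` of a finite group `G` with `O_p(G) = 1` and a block `B`
of `G` with nontrivial defect groups, closed under `(G, B) ↦ (G × G, B ⊗ B)`.
(1) `A(B) = 0` on `C` if and only if `A(B) ≤ 0` on `C`.
(2) `A(B) ≤ c_ε |G|^ε` on `C` for all `ε > 0` if and only if `|A(B)| ≤ 1` on `C`.
(3) `A(B) = 0` on `C` if and only if `A(B) ≤ c_ε |G|^ε` for all `ε > 0` and all `T(B)` are even.
(4) If `p` is odd and `C` is also closed under `(G, B) ↦ (G ≀ C₂, B ≀ C₂)`, then `A(B) = 0` on `C` if and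
only if `A(B) ≤ c_ε |G|^ε` for all `ε > 0`.
The class of all pairs `(G, B)` is closed under both operations (the second one for odd `p`). -/
theorem result (p : ℕ) [Fact p.Prime] (O : ValuationSubring ℂ) (hpO : (p : ℂ) ∈ O.nonunits) :
    (∀ C : Cl, (∀ (G : Type) [i : Group G] (B : Set (G → ℂ)), C G i B → AdmB p O G B) → SqC C →
      ((∀ (G : Type) [i : Group G] (B : Set (G → ℂ)), C G i B → A p O B = 0) ↔
        ∀ (G : Type) [i : Group G] (B : Set (G → ℂ)), C G i B → A p O B ≤ 0) ∧
      ((∀ ε : ℝ, 0 < ε → ∃ c : ℝ, ∀ (G : Type) [i : Group G] (B : Set (G → ℂ)), C G i B →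
          (A p O B : ℝ) ≤ c * (Nat.card G : ℝ) ^ ε) ↔
        ∀ (G : Type) [i : Group G] (B : Set (G → ℂ)), C G i B → |A p O B| ≤ 1) ∧
      ((∀ (G : Type) [i : Group G] (B : Set (G → ℂ)), C G i B → A p O B = 0) ↔
        (∀ ε : ℝ, 0 < ε → ∃ c : ℝ, ∀ (G : Type) [i : Group G] (B : Set (G → ℂ)), C G i B →
          (A p O B : ℝ) ≤ c * (Nat.card G : ℝ) ^ ε) ∧
        ∀ (G : Type) [i : Group G] (B : Set (G → ℂ)), C G i B → Even (T p O B)) ∧
      (p ≠ 2 → WrC C →
        ((∀ (G : Type) [i : Group G] (B : Set (G → ℂ)), C G i B → A p O B = 0) ↔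
          ∀ ε : ℝ, 0 < ε → ∃ c : ℝ, ∀ (G : Type) [i : Group G] (B : Set (G → ℂ)), C G i B →
            (A p O B : ℝ) ≤ c * (Nat.card G : ℝ) ^ ε))) ∧
    SqC (fun G _ B => AdmB p O G B) ∧ (p ≠ 2 → WrC (fun G _ B => AdmB p O G B)) := by
  have hge : ∀ (G : Type) [Group G] [Finite G] (ε : ℝ), 0 < ε → (1 : ℝ) ≤ (Nat.card G : ℝ) ^ ε :=
    fun G _ _ ε hε => Real.one_le_rpow (by exact_mod_cast Nat.card_pos (α := G)) hε.le
  have hTS : ∀ (G : Type) [Group G] [Finite G] (B : Set (G → ℂ)),
      Even (T p O B) ↔ (2 : ℤ) ∣ A p O B := fun G _ _ B => Pool.Agent.Q90.WR.blkAlt_parity B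
  have hup : ∀ C : Cl, (∀ (G : Type) [i : Group G] (B : Set (G → ℂ)), C G i B → A p O B = 0) →
      ∀ ε : ℝ, 0 < ε → ∃ c : ℝ, ∀ (G : Type) [i : Group G] (B : Set (G → ℂ)),
      C G i B → (A p O B : ℝ) ≤ c * (Nat.card G : ℝ) ^ ε := by
    intro C h ε _
    refine ⟨0, fun G _ B hB => ?_⟩
    rw [h G B hB]
    simp
  refine ⟨?_, ?_, ?_⟩
  · intro C hA hS
    have h1 : (∀ ε : ℝ, 0 < ε → ∃ c : ℝ, ∀ (G : Type) [i : Group G] (B : Set (G → ℂ)), C G i B →
          (A p O B : ℝ) ≤ c * (Nat.card G : ℝ) ^ ε) ↔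
        ∀ (G : Type) [i : Group G] (B : Set (G → ℂ)), C G i B → |A p O B| ≤ 1 := by
      constructor
      · intro hs
        exact Pool.Agent.N22.DD.kr_le_one hA hS hs
      · intro h ε hε
        refine ⟨1, fun G _ B hB => ?_⟩
        have := (hA G B hB).fin
        have h2 : |(A p O B : ℝ)| ≤ 1 := by exact_mod_cast h G B hB
        rw [one_mul]
        exact (le_abs_self _).trans (h2.trans (hge G ε hε))
    refine ⟨⟨fun h G _ B hB => (h G B hB).le, Pool.Agent.N22.DD.kr_of_nonpos hA hS⟩, h1,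
      ⟨?_, ?_⟩, fun hp2 hW => ⟨hup C, Pool.Agent.N22.DD.kr_of_sub hp2 hpO hA hS hW⟩⟩
    · intro h
      refine ⟨hup C h, fun G _ B hB => ?_⟩
      have := (hA G B hB).fin
      rw [hTS, h G B hB]
      exact dvd_zero _
    · rintro ⟨hs, hT⟩ G _ B hB
      have := (hA G B hB).fin
      have h2 := h1.mp hs G B hB
      have h3 := (hTS G B).mp (hT G B hB)
      rw [abs_le] at h2
      omega
  · intro G _ B hB
    have := hB.fin
    have := Fintype.ofFinite G
    exact Pool.Agent.N22.DD.AdmB.prod hB hB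
  · intro hp2 G _ B hB
    exact hB.wr hp2 hpO

end Pool.Agent.Results.MP_6a3f1a_al.UpperBoundDecides
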